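import Pool.Agent.W958.ST.Stms

/-!
# Project ST, task ST-4: derivations of the cographic arrangement of `K_{3,3}` killing `d`
-/

set_option autoImplicit false

namespace Pool.Agent.W213.STTS

open MvPolynomial Pool.Agent.W958.ST

variable {σ : Type}

/-- substituting `X s` by `g s`: the difference lies in the ideal generated by the differences of
the variables -/
theorem sub_aeval_mem (g : σ → MvPolynomial σ ℚ) (I : Ideal (MvPolynomial σ ℚ))
    (hg : ∀ s, X s - g s ∈ I) (y : MvPolynomial σ ℚ) : y - aeval g y ∈ I := by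
  have h : (Ideal.Quotient.mkₐ ℚ I).comp (aeval g) = Ideal.Quotient.mkₐ ℚ I := by
    apply MvPolynomial.algHom_ext
    intro s
    rw [AlgHom.comp_apply, aeval_X]
    symm
    rw [Ideal.Quotient.mkₐ_eq_mk, Ideal.Quotient.eq]
    exact hg s
  have h2 := congrArg (fun F => F y) h
  simp only [AlgHom.comp_apply, Ideal.Quotient.mkₐ_eq_mk] at h2
  exact Ideal.Quotient.eq.1 h2.symm

open Classical in
/-- substitution of one variable -/
noncomputable def sb (s : σ) (g : MvPolynomial σ ℚ) : σ → MvPolynomial σ ℚ :=
  fun t => if t = s then g else X t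

theorem sb_self (s : σ) (g : MvPolynomial σ ℚ) : aeval (sb s g) (X s : MvPolynomial σ ℚ) = g := by
  rw [aeval_X, sb, if_pos rfl]

theorem sb_ne {s t : σ} (h : t ≠ s) (g : MvPolynomial σ ℚ) :
    aeval (sb s g) (X t : MvPolynomial σ ℚ) = X t := by
  rw [aeval_X, sb, if_neg h]

/-- if the substitution `X s ↦ g` kills `y` then `X s - g` divides `y` -/
theorem dvd_of_sb (s : σ) (g y : MvPolynomial σ ℚ) (h : aeval (sb s g) y = 0) : X s - g ∣ y := by
  rw [← Ideal.mem_span_singleton]
  have h2 := sub_aeval_mem (sb s g) (Ideal.span {X s - g}) (fun t => by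
    unfold sb
    split_ifs with ht
    · rw [ht]; exact Ideal.subset_span rfl
    · rw [sub_self]; exact zero_mem _) y
  rwa [h, sub_zero] at h2

/-- `X s - g` divides `p * y` and the substitution does not kill `p`: then it divides `y` -/
theorem dvd_of_dvd_mul (s : σ) (g p y : MvPolynomial σ ℚ) (hg : aeval (sb s g) g = g)
    (hp : aeval (sb s g) p ≠ 0) (h : X s - g ∣ p * y) : X s - g ∣ y := by
  apply dvd_of_sb
  obtain ⟨q, hq⟩ := h
  have h2 := congrArg (fun z => aeval (sb s g) z) hq
  simp only [map_mul, map_sub, sb_self, hg, sub_self, zero_mul] at h2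
  exact (mul_eq_zero.1 h2).resolve_left hp

theorem ne_zero_of_eval (p : MvPolynomial σ ℚ) (h : eval (fun _ => (1 : ℚ)) p ≠ 0) : p ≠ 0 := by
  rintro rfl
  simp at h

theorem main : StTS := by
  intro σ i hi a b c d ha hb hc hd
  have h01 : i 0 ≠ i 1 := fun h => absurd (hi h) (by decide)
  have h02 : i 0 ≠ i 2 := fun h => absurd (hi h) (by decide)
  have h03 : i 0 ≠ i 3 := fun h => absurd (hi h) (by decide)
  have h12 : i 1 ≠ i 2 := fun h => absurd (hi h) (by decide)
  have h13 : i 1 ≠ i 3 := fun h => absurd (hi h) (by decide)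
  have h23 : i 2 ≠ i 3 := fun h => absurd (hi h) (by decide)
  have na : a ≠ 0 := by rw [ha]; exact X_ne_zero _
  have nb : b ≠ 0 := by rw [hb]; exact X_ne_zero _
  have nc : c ≠ 0 := by rw [hc]; exact X_ne_zero _
  have nd : d ≠ 0 := by rw [hd]; exact X_ne_zero _
  have nab : a + b ≠ 0 := ne_zero_of_eval _ (by rw [ha, hb]; simp)
  have nac : a + c ≠ 0 := ne_zero_of_eval _ (by rw [ha, hc]; simp)
  have ne' : a + b + c + d ≠ 0 := ne_zero_of_eval _ (by rw [ha, hb, hc, hd]; simp; norm_num)
  have nbd : b + d ≠ 0 := ne_zero_of_eval _ (by rw [hb, hd]; simp)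
  have ncd : c + d ≠ 0 := ne_zero_of_eval _ (by rw [hc, hd]; simp)
  refine ⟨?_, ?_⟩
  · intro u v w hau hbv hbdv hcw hcdw habuv hacuw heuvw
    -- u = a u'
    obtain ⟨u', rfl⟩ := hau
    -- v = b (b + d) v'
    obtain ⟨v1, rfl⟩ := hbdv
    have hb1 : b ∣ v1 := by
      have := dvd_of_dvd_mul (i 1) 0 (b + d) v1 (map_zero _)
        (by rw [hb, hd, map_add, sb_self, sb_ne h13.symm, zero_add]; exact X_ne_zero _)
        (by rw [← hb, sub_zero]; exact hbv)
      rwa [← hb, sub_zero] at this
    obtain ⟨v', rfl⟩ := hb1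
    -- w = c (c + d) w'
    obtain ⟨w1, rfl⟩ := hcdw
    have hc1 : c ∣ w1 := by
      have := dvd_of_dvd_mul (i 2) 0 (c + d) w1 (map_zero _)
        (by rw [hc, hd, map_add, sb_self, sb_ne h23.symm, zero_add]; exact X_ne_zero _)
        (by rw [← hc, sub_zero]; exact hcw)
      rwa [← hc, sub_zero] at this
    obtain ⟨w', rfl⟩ := hc1
    -- u' = (b + d) v' + (a + b) p
    have h3 : a + b ∣ u' - (b + d) * v' := by
      have := dvd_of_dvd_mul (i 1) (-a) a (u' - (b + d) * v')
        (by rw [ha, map_neg, sb_ne h01]) (by rw [ha, sb_ne h01]; exact X_ne_zero _)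
        (by
          rw [← hb, sub_neg_eq_add]
          obtain ⟨q, hq⟩ := habuv
          exact ⟨q - (b + d) * v', by linear_combination hq⟩)
      rwa [← hb, sub_neg_eq_add, add_comm] at this
    obtain ⟨p, hp⟩ := h3
    have h4 : a + c ∣ u' - (c + d) * w' := by
      have := dvd_of_dvd_mul (i 2) (-a) a (u' - (c + d) * w')
        (by rw [ha, map_neg, sb_ne h02]) (by rw [ha, sb_ne h02]; exact X_ne_zero _)
        (by
          rw [← hc, sub_neg_eq_add]
          obtain ⟨q, hq⟩ := hacuw
          exact ⟨q - (c + d) * w', by linear_combination hq⟩)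
      rwa [← hc, sub_neg_eq_add, add_comm] at this
    obtain ⟨q, hq⟩ := h4
    obtain ⟨k, hk⟩ := heuvw
    -- cancellation modulo e = a + b + c + d
    have hcan : ∀ P y : MvPolynomial σ ℚ, aeval (sb (i 3) (-(a + b + c))) P ≠ 0 →
        (a + b + c + d) ∣ P * y → (a + b + c + d) ∣ y := by
      intro P y hP h
      have := dvd_of_dvd_mul (i 3) (-(a + b + c)) P y
        (by rw [ha, hb, hc]; simp only [map_neg, map_add, sb_ne h03, sb_ne h13, sb_ne h23]) hP
        (by rw [← hd, sub_neg_eq_add]; convert h using 1; ring)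
      rw [← hd, sub_neg_eq_add] at this
      convert this using 1; ring
    -- (a + c) (v' + q) = (a + b) (w' + p) modulo e
    have h5 : (a + c) * (v' + q) = (a + b) * (w' + p) + (a + b + c + d) * (v' - w') := by
      linear_combination hp - hq
    -- v' + q in (a + b, e)
    have h6 : v' + q ∈ Ideal.span {a + b, c + d} := by
      classical
      have e1 : aeval (fun t => if t = i 1 then -a else if t = i 3 then -c else X t) a = a := by
        rw [ha, aeval_X, if_neg h01, if_neg h03]
      have e2 : aeval (fun t => if t = i 1 then -a else if t = i 3 then -c else X t) b = -a := by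
        rw [hb, aeval_X, if_pos rfl]
      have e3 : aeval (fun t => if t = i 1 then -a else if t = i 3 then -c else X t) c = c := by
        rw [hc, aeval_X, if_neg h12.symm, if_neg h23]
      have e4 : aeval (fun t => if t = i 1 then -a else if t = i 3 then -c else X t) d = -c := by
        rw [hd, aeval_X, if_neg h13.symm, if_pos rfl]
      have h7 := sub_aeval_mem (fun t => if t = i 1 then -a else if t = i 3 then -c else X t)
        (Ideal.span {a + b, c + d}) (fun t => by
          by_cases t1 : t = i 1
          · rw [if_pos t1, t1, ← hb, sub_neg_eq_add, add_comm]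
            exact Ideal.subset_span (Set.mem_insert _ _)
          · by_cases t3 : t = i 3
            · rw [if_neg t1, if_pos t3, t3, ← hd, sub_neg_eq_add, add_comm d c]
              exact Ideal.subset_span (Set.mem_insert_of_mem _ rfl)
            · rw [if_neg t1, if_neg t3, sub_self]; exact zero_mem _) (v' + q)
      have h8 := congrArg (fun z => aeval (fun t => if t = i 1 then -a else
        if t = i 3 then -c else X t) z) h5
      simp only [map_mul] at h8
      rw [map_add _ ((a + b) * (w' + p)), map_mul, map_mul, map_add _ a b, map_add _ (a + b + c),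
        map_add _ (a + b), map_add _ a b, map_add _ a c, e1, e2, e3, e4] at h8
      have h9 : (a + c) * aeval (fun t => if t = i 1 then -a else
        if t = i 3 then -c else X t) (v' + q) = 0 := by rw [h8]; ring
      have h10 := (mul_eq_zero.1 h9).resolve_left nac
      rwa [h10, sub_zero] at h7
    obtain ⟨r0, t0, h7⟩ := Ideal.mem_span_pair.1 h6
    obtain ⟨r, t, h8⟩ : ∃ r t, v' + q = (a + b) * r + (a + b + c + d) * t :=
      ⟨r0 - t0, t0, by rw [← h7]; ring⟩
    have phab : aeval (sb (i 3) (-(a + b + c))) (a + b) = a + b := by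
      rw [ha, hb, map_add, sb_ne h03, sb_ne h13]
    have phac : aeval (sb (i 3) (-(a + b + c))) (a + c) = a + c := by
      rw [ha, hc, map_add, sb_ne h03, sb_ne h23]
    have h9 : (a + b + c + d) ∣ w' + p - (a + c) * r :=
      hcan (a + b) _ (by rw [phab]; exact nab)
        ⟨(a + c) * t - (v' - w'), by linear_combination (a + c) * h8 - h5⟩
    obtain ⟨s, h10⟩ := h9
    have h11 : v' - w' = (a + c) * t - (a + b) * s := by
      apply mul_left_cancel₀ ne'
      linear_combination (a + c) * h8 - h5 - (a + b) * h10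
    have h12' : (a + b + c + d) ∣ a * r - v' - w' :=
      hcan ((a + b) * (a + c)) _ (by rw [map_mul, phab, phac]; exact mul_ne_zero nab nac)
        ⟨k - (a + b) * v' - c * w' - (a + b) * a * s, by
          linear_combination hk + (-a) * hp + (-a) * (a + b) * h10⟩
    obtain ⟨z, h13'⟩ := h12'
    -- halves
    have hh : (2 : MvPolynomial σ ℚ) * C (1 / 2) = 1 := by
      rw [show (2 : MvPolynomial σ ℚ) = C 2 from (map_ofNat C 2).symm, ← C_mul]
      norm_num
    have half : ∀ x : MvPolynomial σ ℚ, ∃ y, x = 2 * y := fun x =>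
      ⟨C (1 / 2) * x, by linear_combination (-x) * hh⟩
    obtain ⟨r', rfl⟩ := half r
    obtain ⟨s', rfl⟩ := half s
    obtain ⟨t', rfl⟩ := half t
    obtain ⟨z', rfl⟩ := half z
    have h20 : (2 : MvPolynomial σ ℚ) ≠ 0 := two_ne_zero
    have hv : v' = a * r' - (a + b + c + d) * z' + (a + c) * t' - (a + b) * s' := by
      apply mul_left_cancel₀ h20
      linear_combination h11 - h13'
    have hw : w' = a * r' - (a + b + c + d) * z' - (a + c) * t' + (a + b) * s' := by
      apply mul_left_cancel₀ h20
      linear_combination -h11 - h13'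
    have hu : u' = (b + d) * v' + (a + b) * ((a + c) * (2 * r') + (a + b + c + d) * (2 * s') - w')
        := by linear_combination hp + (a + b) * h10
    rw [hv, hw] at hu
    refine ⟨![z', -z' - t', -z' - s', r' + z' + s' + t'], ?_, ?_, ?_⟩
    · rw [hu, Fin.sum_univ_four]
      simp only [tha, Matrix.cons_val_zero, Matrix.cons_val_one, Matrix.cons_val]
      ring
    · rw [hv, Fin.sum_univ_four]
      simp only [thb, Matrix.cons_val_zero, Matrix.cons_val_one, Matrix.cons_val]
      ring
    · rw [hw, Fin.sum_univ_four]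
      simp only [thc, Matrix.cons_val_zero, Matrix.cons_val_one, Matrix.cons_val]
      ring
  · intro f h1 h2 h3
    rw [Fin.sum_univ_four] at h1 h2 h3
    simp only [tha, thb, thc, Matrix.cons_val_zero, Matrix.cons_val_one, Matrix.cons_val] at h1 h2 h3
    have r1 : -(2 * b * c + 2 * c * d + 2 * b * d + a * d + d * d) * f 0 + c * (a - d) * f 1 +
        b * (a - d) * f 2 + (a * (b + d) + (a + 2 * c) * (a + b)) * f 3 = 0 := by
      apply mul_left_cancel₀ na
      linear_combination h1
    have r2 : -(2 * c + d) * f 0 - c * f 1 + (2 * a + b) * f 2 + a * f 3 = 0 := by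
      apply mul_left_cancel₀ (mul_ne_zero nb nbd)
      linear_combination h2
    have r3 : -(2 * b + d) * f 0 + (2 * a + c) * f 1 - b * f 2 + a * f 3 = 0 := by
      apply mul_left_cancel₀ (mul_ne_zero nc ncd)
      linear_combination h3
    have nK : (4 : MvPolynomial σ ℚ) * ((a + b) * (a + c) * (a + b + c + d)) ≠ 0 :=
      mul_ne_zero (ne_zero_of_eval _ (by simp)) (mul_ne_zero (mul_ne_zero nab nac) ne')
    have q1 : a * f 1 = b * f 0 := by
      apply mul_left_cancel₀ nK
      linear_combination -((2 * a + b) * a + b * a) * r1 -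
        (-b * (a * (b + d) + (a + 2 * c) * (a + b)) - b * (a - d) * a) * r2 -
        (b * (a - d) * a - (2 * a + b) * (a * (b + d) + (a + 2 * c) * (a + b))) * r3
    have q2 : a * f 2 = c * f 0 := by
      apply mul_left_cancel₀ nK
      linear_combination (-c * a - (2 * a + c) * a) * r1 +
        ((2 * a + c) * (a * (b + d) + (a + 2 * c) * (a + b)) - c * (a - d) * a) * r2 +
        (c * (a - d) * a + c * (a * (b + d) + (a + 2 * c) * (a + b))) * r3
    have q3 : a * f 3 = d * f 0 := by
      apply mul_left_cancel₀ nK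
      linear_combination -(c * b - (2 * a + c) * (2 * a + b)) * r1 -
        ((2 * a + c) * b * (a - d) + b * c * (a - d)) * r2 -
        (c * (a - d) * (2 * a + b) + c * b * (a - d)) * r3
    have d0 : a ∣ f 0 := by
      have := dvd_of_dvd_mul (i 0) 0 b (f 0) (map_zero _)
        (by rw [hb, sb_ne h01.symm]; exact X_ne_zero _)
        (by rw [← ha, sub_zero, ← q1]; exact dvd_mul_right _ _)
      rwa [← ha, sub_zero] at this
    obtain ⟨g, hg⟩ := d0
    refine ⟨g, by rw [hg, mul_comm], ?_, ?_, ?_⟩
    · apply mul_left_cancel₀ na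
      rw [q1, hg]; ring
    · apply mul_left_cancel₀ na
      rw [q2, hg]; ring
    · apply mul_left_cancel₀ na
      rw [q3, hg]; ring

end Pool.Agent.W213.STTS

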